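import Pool.Agent.H242R3.ES.StmtsK

/-!
# K13: gluing in dimension 3
-/

set_option autoImplicit false
set_option maxHeartbeats 4000000

open scoped Classical

namespace Pool.Agent.H242R3.ES.K13H939

variable {D : ℕ}

lemma B_comm (x y : LV D) : B x y = B y x := by
  unfold B
  congr 1
  · exact Finset.sum_congr rfl fun i _ => mul_comm _ _
  · exact mul_comm _ _

lemma B_add_left (x y z : LV D) : B (x + y) z = B x z + B y z := by
  unfold B
  simp only [Pi.add_apply, add_mul, Finset.sum_add_distrib]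
  ring

lemma B_smul_left (c : ℝ) (x z : LV D) : B (c • x) z = c * B x z := by
  unfold B
  simp only [Pi.smul_apply, smul_eq_mul, mul_sub, Finset.mul_sum, mul_assoc]

lemma B_add_right (x y z : LV D) : B z (x + y) = B z x + B z y := by
  rw [B_comm, B_add_left, B_comm x, B_comm y]

lemma B_smul_right (c : ℝ) (x z : LV D) : B z (c • x) = c * B z x := by
  rw [B_comm, B_smul_left, B_comm x]

/-- the form as a bilinear map -/
noncomputable def Bl : LV D →ₗ[ℝ] LV D →ₗ[ℝ] ℝ :=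
  LinearMap.mk₂ ℝ B B_add_left (fun c x y => by rw [B_smul_left]; rfl)
    (fun x y z => B_add_right y z x) (fun c x y => by rw [B_smul_right]; rfl)

lemma Bl_apply (x y : LV D) : Bl x y = B x y := rfl

lemma B_zero_left (x : LV D) : B (0 : LV D) x = 0 := by
  rw [← Bl_apply, map_zero]; rfl

lemma finrank_LV : Module.finrank ℝ (LV 3) = 4 := by
  simp [Module.finrank_fintype_fun_eq_card]

/-- a frame -/
structure Fr (a b n d : LV 3) : Prop where
  aa : B a a = 1
  bb : B b b = 1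
  ab : B a b = -1
  nn : B n n = 1
  an : B a n = 0
  bn : B b n = 0
  dX : B d (a + b) ≠ 0

lemma Fr.li {a b n d : LV 3} (h : Fr a b n d) : LinearIndependent ℝ ![a, b, n, d] := by
  rw [Fintype.linearIndependent_iff]
  intro g hg
  rw [Fin.sum_univ_four] at hg
  simp only [Matrix.cons_val_zero, Matrix.cons_val_one, Matrix.cons_val] at hg
  obtain ⟨aa, bb, ab, nn, an, bn, dX⟩ := h
  have ba : B b a = -1 := by rw [B_comm]; exact ab
  have na : B n a = 0 := by rw [B_comm]; exact an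
  have nb : B n b = 0 := by rw [B_comm]; exact bn
  have hX := congrArg (fun y => B y (a + b)) hg
  have hn := congrArg (fun y => B y n) hg
  have ha := congrArg (fun y => B y a) hg
  have hd := congrArg (fun y => B d y) hg
  simp only [B_add_left, B_smul_left, B_zero_left, B_add_right, B_smul_right] at hX hn ha hd dX
  rw [B_comm d 0, B_zero_left] at hd
  rw [aa, ab, ba, bb, na, nb] at hX
  rw [an, bn, nn] at hn
  rw [aa, ba, na] at ha
  have e3 : g 3 = 0 := by
    have : g 3 * (B d a + B d b) = 0 := by linarith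
    exact (mul_eq_zero.1 this).resolve_right dX
  rw [e3] at hn ha hd
  have e2 : g 2 = 0 := by linarith
  have e01 : g 0 = g 1 := by linarith
  rw [e2, e01] at hd
  have e1 : g 1 = 0 := by
    have : g 1 * (B d a + B d b) = 0 := by linarith
    exact (mul_eq_zero.1 this).resolve_right dX
  intro i
  fin_cases i
  · exact e01.trans e1
  · exact e1
  · exact e2
  · exact e3

/-- the basis of a frame -/
noncomputable def Fr.bs {a b n d : LV 3} (h : Fr a b n d) : Module.Basis (Fin 4) ℝ (LV 3) :=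
  basisOfLinearIndependentOfCardEqFinrank h.li (by rw [finrank_LV]; rfl)

lemma Fr.bs_eq {a b n d : LV 3} (h : Fr a b n d) (i : Fin 4) : h.bs i = ![a, b, n, d] i := by
  unfold Fr.bs
  rw [coe_basisOfLinearIndependentOfCardEqFinrank]

lemma Fr.exp {a b n d : LV 3} (h : Fr a b n d) (y : LV 3) : ∃ α β γ δ : ℝ,
    y = α • a + β • b + γ • n + δ • d := by
  have := h.bs.sum_repr y
  rw [Fin.sum_univ_four] at this
  simp only [h.bs_eq] at this
  exact ⟨_, _, _, _, this.symm⟩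

/-- existence -/
lemma ext {a b n d a' b' n' d' : LV 3} (h : Fr a b n d) 
    (haa : B a' a' = B a a) (hbb : B b' b' = B b b) (hnn : B n' n' = B n n) (hdd : B d' d' = B d d)
    (hab : B a' b' = B a b) (han : B a' n' = B a n) (had : B a' d' = B a d)
    (hbn : B b' n' = B b n) (hbd : B b' d' = B b d) (hnd : B n' d' = B n d) :
    ∃ T : LV 3 →ₗ[ℝ] LV 3, (∀ x y, B (T x) (T y) = B x y) ∧ T a = a' ∧ T b = b' ∧ T n = n' ∧
      T d = d' := by
  set T : LV 3 →ₗ[ℝ] LV 3 := h.bs.constr ℝ ![a', b', n', d'] with hT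
  have hTi : ∀ i, T (![a, b, n, d] i) = ![a', b', n', d'] i := by
    intro i
    rw [hT, ← h.bs_eq, Module.Basis.constr_basis]
  have Ta : T a = a' := hTi 0
  have Tb : T b = b' := hTi 1
  have Tn : T n = n' := hTi 2
  have Td : T d = d' := hTi 3
  refine ⟨T, ?_, Ta, Tb, Tn, Td⟩
  intro x y
  obtain ⟨α, β, γ, δ, rfl⟩ := h.exp x
  obtain ⟨α', β', γ', δ', rfl⟩ := h.exp y
  simp only [map_add, map_smul, Ta, Tb, Tn, Td, B_add_left, B_add_right, B_smul_left, B_smul_right]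
  rw [B_comm b' a', B_comm n' a', B_comm d' a', B_comm n' b', B_comm d' b', B_comm d' n',
    B_comm b a, B_comm n a, B_comm d a, B_comm n b, B_comm d b, B_comm d n,
    haa, hbb, hnn, hdd, hab, han, had, hbn, hbd, hnd]

/-- uniqueness -/
lemma uniq {a b n d : LV 3} (h : Fr a b n d) (T T' : LV 3 →ₗ[ℝ] LV 3)
    (hT : ∀ x y, B (T x) (T y) = B x y) (hT' : ∀ x y, B (T' x) (T' y) = B x y)
    (ha : T a = T' a) (hb : T b = T' b) (hn : T n = T' n) : T = T' := by
  have h2 : Fr (T a) (T b) (T n) (T d) := by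
    refine ⟨?_, ?_, ?_, ?_, ?_, ?_, ?_⟩
    · rw [hT]; exact h.aa
    · rw [hT]; exact h.bb
    · rw [hT]; exact h.ab
    · rw [hT]; exact h.nn
    · rw [hT]; exact h.an
    · rw [hT]; exact h.bn
    · rw [← map_add, hT]; exact h.dX
  obtain ⟨α, β, γ, δ, hD⟩ := h2.exp (T' d)
  have pa : B (T' d) (T a) = B d a := by rw [ha, hT']
  have pb : B (T' d) (T b) = B d b := by rw [hb, hT']
  have pn : B (T' d) (T n) = B d n := by rw [hn, hT']
  have pd : B (T' d) (T' d) = B d d := hT' _ _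
  rw [hD] at pa pb pn pd
  simp only [B_add_left, B_add_right, B_smul_left, B_smul_right, hT] at pa pb pn pd
  obtain ⟨aa, bb, ab, nn, an, bn, dX⟩ := h
  have ba : B b a = -1 := by rw [B_comm]; exact ab
  have na : B n a = 0 := by rw [B_comm]; exact an
  have nb : B n b = 0 := by rw [B_comm]; exact bn
  rw [B_add_right] at dX
  rw [aa, ba, na] at pa
  rw [ab, bb, nb] at pb
  rw [an, bn, nn] at pn
  rw [aa, ba, na, ab, bb, nb, an, bn, nn, B_comm a d, B_comm b d, B_comm n d] at pd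
  have e3 : δ = 1 := by
    have : (δ - 1) * (B d a + B d b) = 0 := by linarith
    have := (mul_eq_zero.1 this).resolve_right dX
    linarith
  subst e3
  have e2 : γ = 0 := by linarith
  subst e2
  have e01 : α = β := by linarith
  subst e01
  have e0 : α = 0 := by
    have : α * (B d a + B d b) = 0 := by nlinarith
    exact (mul_eq_zero.1 this).resolve_right dX
  subst e0
  have hd : T d = T' d := by rw [hD]; simp
  have h3 : Fr a b n d := ⟨aa, bb, ab, nn, an, bn, by rw [B_add_right]; exact dX⟩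
  apply LinearMap.ext
  intro y
  obtain ⟨α, β, γ, δ, rfl⟩ := h3.exp y
  simp only [map_add, map_smul, ha, hb, hn, hd]

section comb

set_option linter.unusedSectionVars false

variable {ι : Type} [Fintype ι] {V V' : ι → LV 3} {N N' : Set ι → LV 3}

lemma V_ne (hV : GQ 3 V) (i : ι) : V i ≠ 0 := by
  intro h
  have := hV.norm i
  rw [h, B_zero_left] at this
  exact zero_ne_one this

lemma rk_single (hV : GQ 3 V) (i : ι) : rk V {i} = 1 := by
  unfold rk
  rw [Set.image_singleton]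
  exact finrank_span_singleton (V_ne hV i)

lemma rk_univ (hV : GQ 3 V) : rk V Set.univ = 4 := by
  unfold rk
  rw [Set.image_univ, hV.span, finrank_top, finrank_LV]

lemma face_univ : Face V Set.univ :=
  ⟨0, fun i => by simp, fun i => by simp⟩

lemma face_empty (hV : GQ 3 V) : Face V ∅ := by
  obtain ⟨w, _, hw⟩ := hV.tw
  refine ⟨-(Bl.flip w), fun i => ?_, fun i => ?_⟩
  · have h1 := hw i
    show 0 ≤ -(B (V i) w)
    linarith
  · constructor
    · intro h; exact absurd h (Set.notMem_empty i)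
    · intro h
      have h1 := hw i
      have h2 : -(B (V i) w) = 0 := h
      exfalso; linarith

lemma single_ss (hV : GQ 3 V) {v : ι} {F : Set ι} (hv : v ∈ F) (h : rk V F ≠ 1) : {v} ⊂ F := by
  refine ⟨Set.singleton_subset_iff.2 hv, fun h2 => h ?_⟩
  rw [← rk_single hV v]
  congr 1
  exact h2.antisymm (Set.singleton_subset_iff.2 hv)

lemma edge_ed (hE : EdgeB) (hV : GQ 3 V) {v w : ι} (h : v ≠ w) (hf : Face V {v, w}) :
    Ed V {v, w} := ((hE ι V hV).1 {v, w}).2 ⟨v, w, h, rfl, hf⟩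

lemma pair_eq {v x w : ι} (hx : x ≠ v) (h : ({v, x} : Set ι) = {v, w}) : x = w := by
  have : x ∈ ({v, w} : Set ι) := by rw [← h]; simp
  rcases this with h1 | h1
  · exact absurd h1 hx
  · exact h1

lemma exists_nb (hG3 : TaskG3) (hG6 : TaskG6) (hV : GQ 3 V) {v : ι} {F : Set ι} (hF : Face V F)
    (hv : v ∈ F) (h1 : rk V F ≠ 1) : ∃ w ∈ F, w ≠ v ∧ Face V {v, w} ∧ Cov V {v} {v, w} := by
  obtain ⟨T, hTF, hC⟩ := (hG3 ι (LV 3) V {v} F (hV.vert v) hF (single_ss hV hv h1)).1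
  obtain ⟨w, hwv, rfl⟩ := hG6 ι (LV 3) V hV.vert v T hC
  exact ⟨w, hTF (by simp), hwv, hC.2.1, hC⟩

lemma cov_of (hE : EdgeB) (hV : GQ 3 V) {v w : ι} (hw : w ≠ v) (hf : Face V {v, w}) :
    Cov V {v} {v, w} := by
  refine ⟨hV.vert v, hf, ⟨by simp, fun h => ?_⟩, ?_⟩
  · have : w ∈ ({v} : Set ι) := h (by simp)
    exact hw this
  · rw [(edge_ed hE hV hw.symm hf).2, rk_single hV]

lemma other_nb (hG4 : TaskG4) (hG6 : TaskG6) (hE : EdgeB) (hV : GQ 3 V) {v w : ι} {F : Set ι}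
    (hF : Fc V F) (hv : v ∈ F) (hw : w ∈ F) (hwv : w ≠ v) (hf : Face V {v, w}) :
    ∃ u ∈ F, u ≠ v ∧ u ≠ w ∧ Face V {v, u} ∧
      ∀ x ∈ F, x ≠ v → Face V {v, x} → x = w ∨ x = u := by
  have hss : {v} ⊂ F := single_ss hV hv (by rw [hF.2]; norm_num)
  obtain ⟨T', ⟨⟨hc', hs'⟩, hne⟩, huniq⟩ := hG4 ι (LV 3) V {v} F (hV.vert v) hF.1 hss
    (by rw [hF.2, rk_single hV]) {v, w} (cov_of hE hV hwv hf) (by
      intro x hx
      rcases hx with h | h
      · rw [h]; exact hv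
      · rw [h]; exact hw)
  obtain ⟨u, huv, rfl⟩ := hG6 ι (LV 3) V hV.vert v T' hc'
  refine ⟨u, hs' (by simp), huv, ?_, hc'.2.1, ?_⟩
  · rintro rfl
    exact hne rfl
  · intro x hx hxv hfx
    by_cases h : ({v, x} : Set ι) = {v, w}
    · exact Or.inl (pair_eq hxv h)
    · right
      have := huniq {v, x} ⟨⟨cov_of hE hV hxv hfx, by
        intro y hy
        rcases hy with h | h
        · rw [h]; exact hv
        · rw [h]; exact hx⟩, h⟩
      exact pair_eq hxv this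

lemma frame (hE : EdgeB) (hV : GQ 3 V) (hN : NrmP V N) {v w u : ι} {F : Set ι}
    (hF : Fc V F) (hv : v ∈ F) (hw : w ∈ F) (hwv : w ≠ v) (hf : Face V {v, w})
    (huv : u ≠ v) (huw : u ≠ w) : Fr (V v) (V w) (N F) (V u) := by
  have hed := edge_ed hE hV hwv.symm hf
  have hSY := (hE ι V hV).2.1 v w hwv.symm
  have h3 := ((hE ι V hV).2.2.1 _ hed).2 u
  rw [hSY] at h3
  refine ⟨hV.norm v, hV.norm w, hV.edge v w hwv.symm hf, (hN F hF).1, ((hN F hF).2 v).2.2 hv,
    ((hN F hF).2 w).2.2 hw, fun h => ?_⟩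
  rcases h3.2.1 h with h | h
  · exact huv h
  · exact huw h

/-- two facets sharing an edge -/
lemma inter_eq (hE : EdgeB) (hV : GQ 3 V) {v w : ι} {F G : Set ι} (hF : Fc V F) (hG : Fc V G)
    (hFG : F ≠ G) (hvF : v ∈ F) (hwF : w ∈ F) (hvG : v ∈ G) (hwG : w ∈ G) (hwv : w ≠ v)
    (hf : Face V {v, w}) : F ∩ G = {v, w} := by
  have sub : ∀ H : Set ι, v ∈ H → w ∈ H → ({v, w} : Set ι) ⊆ H := by
    intro H h1 h2 x hx
    rcases hx with h | h
    · rw [h]; exact h1
    · rw [h]; exact h2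
  obtain ⟨F1, G1, h1, h2, h3, h4, h5⟩ := (hE ι V hV).2.2.2.2 {v, w} (edge_ed hE hV hwv.symm hf)
  rcases h5 F hF (sub F hvF hwF) with a | a <;> rcases h5 G hG (sub G hvG hwG) with b | b
  · exact absurd (a.trans b.symm) hFG
  · rw [a, b, h4]
  · rw [a, b, h4, Set.inter_comm]
  · exact absurd (a.trans b.symm) hFG

lemma edge_fc (hE : EdgeB) (hV : GQ 3 V) {v w : ι} (hwv : w ≠ v) (hf : Face V {v, w}) :
    ∃ F, Fc V F ∧ v ∈ F ∧ w ∈ F := by
  obtain ⟨F1, G1, h1, h2, h3, h4, h5⟩ := (hE ι V hV).2.2.2.2 {v, w} (edge_ed hE hV hwv.symm hf)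
  have hv : v ∈ F1 ∩ G1 := by rw [← h4]; simp
  have hw : w ∈ F1 ∩ G1 := by rw [← h4]; simp
  exact ⟨F1, h1, hv.1, hw.1⟩

/-- local isometry -/
def Q (V V' : ι → LV 3) (N N' : Set ι → LV 3) (T : LV 3 →ₗ[ℝ] LV 3) (v : ι) (F : Set ι) : Prop :=
  (∀ x y, B (T x) (T y) = B x y) ∧ T (V v) = V' v ∧
    (∀ w ∈ F, w ≠ v → Face V {v, w} → T (V w) = V' w) ∧ T (N F) = N' F

end comb

theorem t : TaskK13 := by
  intro hG2 hG3 hG4 hG6 hG7 hGen hE hC hS hVC ι _ V V' hV hV' hface N N' hN hN' hB hc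
  have hF0 : Face V ∅ := face_empty hV
  have hFc : ∀ F, Fc V F ↔ Fc V' F := by
    intro F
    constructor
    · rintro ⟨h1, h2⟩
      exact ⟨(hface F).1 h1, by rw [← hG7 ι _ _ V V' hface hF0 F h1]; exact h2⟩
    · rintro ⟨h1, h2⟩
      exact ⟨(hface F).2 h1, by rw [hG7 ι _ _ V V' hface hF0 F ((hface F).2 h1)]; exact h2⟩
  have rk3 : ∀ F, Fc V F → rk V F ≠ 1 := by
    intro F hF; rw [hF.2]; norm_num
  -- existence
  have hex : ∀ v F, Fc V F → v ∈ F → ∃ T, Q V V' N N' T v F := by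
    intro v F hF hv
    obtain ⟨w, hw, hwv, hfw, _⟩ := exists_nb hG3 hG6 hV hF.1 hv (rk3 F hF)
    obtain ⟨u, hu, huv, huw, hfu, hall⟩ := other_nb hG4 hG6 hE hV hF hv hw hwv hfw
    have fr := frame hE hV hN hF hv hw hwv hfw huv huw
    have hF' := (hFc F).1 hF
    have hn := fun i => ((hN F hF).2 i).2
    have hn' := fun i => ((hN' F hF').2 i).2
    obtain ⟨T, hT, ta, tb, tn, td⟩ := ext (a' := V' v) (b' := V' w) (n' := N' F) (d' := V' u) fr
      (by rw [hV.norm, hV'.norm]) (by rw [hV.norm, hV'.norm])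
      (by rw [(hN F hF).1, (hN' F hF').1]) (by rw [hV.norm, hV'.norm])
      (by rw [hV.edge v w hwv.symm hfw, hV'.edge v w hwv.symm ((hface _).1 hfw)])
      (by rw [(hn v).2 hv, (hn' v).2 hv])
      (by rw [hV.edge v u huv.symm hfu, hV'.edge v u huv.symm ((hface _).1 hfu)])
      (by rw [(hn w).2 hw, (hn' w).2 hw])
      (hB v w u F hF hv hw hu hwv huv hfw hfu).symm
      (by rw [B_comm, B_comm (N F), (hn u).2 hu, (hn' u).2 hu])
    refine ⟨T, hT, ta, fun x hx hxv hfx => ?_, tn⟩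
    rcases hall x hx hxv hfx with rfl | rfl
    · exact tb
    · exact td
  -- step (i)
  have hi : ∀ T T' v w F, Fc V F → v ∈ F → w ∈ F → w ≠ v → Face V {v, w} →
      Q V V' N N' T v F → Q V V' N N' T' w F → T = T' := by
    intro T T' v w F hF hv hw hwv hfw hQ hQ'
    obtain ⟨u, hu, huv, huw, hfu, hall⟩ := other_nb hG4 hG6 hE hV hF hv hw hwv hfw
    have fr := frame hE hV hN hF hv hw hwv hfw huv huw
    refine uniq fr T T' hQ.1 hQ'.1 ?_ ?_ ?_
    · rw [hQ.2.1, hQ'.2.2.1 v hv hwv.symm (by rw [Set.pair_comm]; exact hfw)]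
    · rw [hQ'.2.1, hQ.2.2.1 w hw hwv hfw]
    · rw [hQ.2.2.2, hQ'.2.2.2]
  -- step (ii)
  have hii : ∀ T T' v w F G, Fc V F → Fc V G → F ≠ G → v ∈ F → w ∈ F → v ∈ G → w ∈ G → w ≠ v →
      Face V {v, w} → Q V V' N N' T v F → Q V V' N N' T' v G → T = T' := by
    intro T T' v w F G hF hG hFG hvF hwF hvG hwG hwv hfw hQ hQ'
    obtain ⟨u, hu, huv, huw, hfu, hall⟩ := other_nb hG4 hG6 hE hV hG hvG hwG hwv hfw
    have fr := frame hE hV hN hG hvG hwG hwv hfw huv huw
    have hint := inter_eq hE hV hF hG hFG hvF hwF hvG hwG hwv hfw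
    obtain ⟨c, h1, h2⟩ := hc F G hF hG hFG (by rw [hint]; exact edge_ed hE hV hwv.symm hfw)
    rw [hint, (hE ι V hV).2.1 v w hwv.symm] at h1
    rw [hint, (hE ι V' hV').2.1 v w hwv.symm] at h2
    refine uniq fr T T' hQ.1 hQ'.1 ?_ ?_ ?_
    · rw [hQ.2.1, hQ'.2.1]
    · rw [hQ.2.2.1 w hwF hwv hfw, hQ'.2.2.1 w hwG hwv hfw]
    · rw [hQ'.2.2.2]
      have h3 := congrArg T h1
      rw [map_add, map_smul, map_add, hQ.2.1, hQ.2.2.1 w hwF hwv hfw, hQ.2.2.2, ← h2] at h3
      exact add_left_cancel h3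
  -- step A
  have hA : ∀ T v F, Fc V F → v ∈ F → Q V V' N N' T v F → ∀ w ∈ F, Q V V' N N' T w F := by
    intro T v F hF hv hQ
    have := hS ι (LV 3) V hV.vert hF0 F hF.1 {w | Q V V' N N' T w F} ⟨v, hQ, hv⟩ (by
      intro i k hiM hiF hkF hki hfik
      obtain ⟨T', hT'⟩ := hex k F hF hkF
      have h := hi T T' i k F hF hiF hkF hki hfik hiM hT'
      show Q V V' N N' T k F
      rw [h]; exact hT')
    exact fun w hw => this hw
  -- step B
  have hBB : ∀ T v F, Fc V F → v ∈ F → Q V V' N N' T v F → ∀ G, Fc V G → v ∈ G →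
      Q V V' N N' T v G := by
    intro T v F hF hv hQ
    have aux : ∀ F w, Fc V F → v ∈ F → w ∈ F → w ≠ v → Face V {v, w} → Q V V' N N' T v F →
        ∀ G, Fc V G → v ∈ G → w ∈ G → Q V V' N N' T v G := by
      intro F w hF hv hw hwv hfw hQ G hG hvG hwG
      by_cases h : F = G
      · rw [← h]; exact hQ
      · obtain ⟨T', hT'⟩ := hex v G hG hvG
        have h2 := hii T T' v w F G hF hG h hv hw hvG hwG hwv hfw hQ hT'
        rw [h2]; exact hT'
    have := hVC ι (LV 3) V hV.vert v {w | ∀ G, Fc V G → v ∈ G → w ∈ G → Q V V' N N' T v G}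
      (by
        obtain ⟨w, hw, hwv, hfw, _⟩ := exists_nb hG3 hG6 hV hF.1 hv (rk3 F hF)
        exact ⟨w, aux F w hF hv hw hwv hfw hQ, hwv, hfw⟩)
      (by
        intro w u S hwM hwv huv hfw hfu hS hrk hvS hwS huS
        exact aux S u ⟨hS, hrk⟩ hvS huS huv hfu (hwM S ⟨hS, hrk⟩ hvS hwS))
    intro G hG hvG
    obtain ⟨w, hw, hwv, hfw, _⟩ := exists_nb hG3 hG6 hV hG.1 hvG (rk3 G hG)
    exact this w hwv hfw G hG hvG hw
  -- start
  have hne : Nonempty ι := by
    by_contra h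
    rw [not_nonempty_iff] at h
    have h1 := rk_univ hV
    unfold rk at h1
    rw [Set.univ_eq_empty_iff.2 h, Set.image_empty, Submodule.span_empty, finrank_bot] at h1
    norm_num at h1
  obtain ⟨i0⟩ := hne
  have hfc : ∀ i, ∃ F, Fc V F ∧ i ∈ F := by
    intro i
    obtain ⟨w, _, hwv, hfw, _⟩ := exists_nb hG3 hG6 hV (F := Set.univ) face_univ (Set.mem_univ i)
      (by rw [rk_univ hV]; norm_num)
    obtain ⟨F, hF, hi, _⟩ := edge_fc hE hV hwv hfw
    exact ⟨F, hF, hi⟩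
  obtain ⟨F0, hF0', hi0⟩ := hfc i0
  obtain ⟨T, hT⟩ := hex i0 F0 hF0' hi0
  have hall := hC ι (LV 3) V hV.vert hF0 ∅ hF0 {i | ∀ F, Fc V F → i ∈ F → Q V V' N N' T i F}
    ⟨i0, hBB T i0 F0 hF0' hi0 hT, Set.notMem_empty _⟩ (by
      intro i k hiM _ _ hki hfik
      obtain ⟨F, hF, hiF, hkF⟩ := edge_fc hE hV hki hfik
      exact hBB T k F hF hkF (hA T i F hF hiF (hiM F hF hiF) k hkF))
  refine ⟨T, hT.1, fun i => ?_⟩
  obtain ⟨F, hF, hiF⟩ := hfc i
  exact (hall i (Set.notMem_empty i) F hF hiF).2.1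

end Pool.Agent.H242R3.ES.K13H939
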